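import Pool.Agent.Q171.GS.Main

/-!
# Unordered configuration spaces of graphs with sinks need not be aspherical

The answer to Q1 of MP_c15946_gt is negative.  For the rose with three petals whose vertex is a
sink, the space `B_2` of unordered pairs of points (which may collide at the vertex) has a
nontrivial second homotopy group.

Moving one point along each of two petals gives the six faces of the boundary of a cube in `B_2`
(the third coordinate would be a third point, which stays at the vertex on the faces).  The sum of
the positions maps `B_2` to the 2-skeleton of the torus `(ℝ/ℤ)³`; a null homotopy lifts to the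
2-skeleton of the cubical grid in `ℝ³`, and so contradicts the no-retraction theorem.
-/

set_option autoImplicit false

namespace Pool.Agent.Results.MP_c15946_gt.RoseNotAspherical

open Pool.Agent.Q171.GS Topology

theorem result :
    (∃ x : rose.B Set.univ 2,
      Nontrivial (π_ 2 (Component (rose.B Set.univ 2) x) ⟨x, Joined.refl x⟩)) ∧
    ¬ ∀ (Γ : Graph) (S : Set Γ.V) (k : ℕ), Aspherical (Γ.F S k) ∧ Aspherical (Γ.B S k) := by
  refine ⟨⟨base, nontrivial_pi2⟩, fun h => ?_⟩
  have h1 := (h rose Set.univ 2).2 base 2 le_rfl
  exact not_subsingleton_iff_nontrivial.mpr nontrivial_pi2 h1

end Pool.Agent.Results.MP_c15946_gt.RoseNotAspherical
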